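import Pool.Agent.Lib.MP_1e63be_al.S42.Main

set_option autoImplicit false

universe u

namespace Pool.Agent.Results.MP_1e63be_al.AnyField

open Pool.Agent.Lib.MP_1e63be_al

theorem result :
    ∀ (K R : Type u) [Field K] [Ring R] [Algebra K R] [Nontrivial R],
      Module.rank K R < Cardinal.continuum →
        ∃ ρ : WithTop Ordinal.{u + 1}, HasCBRank (Zg R) ρ ∧ HasCBRank (Zg Rᵐᵒᵖ) ρ :=
  fun K R _ _ _ _ h => S42.cb_eq_field K R h

end Pool.Agent.Results.MP_1e63be_al.AnyField
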