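import Pool.Agent.Lib.MP_1e63be_al.Z47.Main

namespace Pool.Agent.Results.MP_1e63be_al.Counterexample

open Pool.Agent.Lib.MP_1e63be_al

/-- There is a ring whose left Ziegler spectrum has Cantor-Bendixson rank `0` and whose right
Ziegler spectrum has Cantor-Bendixson rank infinity. -/
theorem result : ∃ (R : Type) (_ : Ring R), HasCBRank (Zg R) 0 ∧ HasCBRank (Zg Rᵐᵒᵖ) ⊤ ∧
    Subsingleton (Zg R) ∧ Nontrivial (Zg Rᵐᵒᵖ) ∧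
    (∀ U : Set (Zg Rᵐᵒᵖ), IsOpen U → U = ∅ ∨ U = Set.univ) ∧
    ¬ ∃ ρ, HasCBRank (Zg R) ρ ∧ HasCBRank (Zg Rᵐᵒᵖ) ρ :=
  let ⟨R, i, a, b, c, d, e⟩ := Z47.main_zfc
  ⟨R, i, a, b, c, d, e, fun ⟨_, k, l⟩ =>
    WithTop.zero_ne_top ((Z47.cb_unique a k).trans (Z47.cb_unique l b))⟩

end Pool.Agent.Results.MP_1e63be_al.Counterexample
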